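import Pool.Agent.H638.GM.Stm

/-!
# Project GM: COST and SWAP
-/

set_option autoImplicit false

open MeasureTheory Set
open scoped ENNReal NNReal

namespace Pool.Agent.H280.GMCOSTSWAP

open Pool.Agent.H638.GM

theorem cost : S_COST := by
  intro d F h K hF
  have hΦ : LipschitzWith (max 1 K) (Prod.map id F : V d × V d → V d × V d) := by
    have h1 : LipschitzWith (K * 1) fun p : V d × V d => F p.2 := hF.comp LipschitzWith.prod_snd
    rw [mul_one] at h1
    exact LipschitzWith.prod_fst.prodMk h1
  have hsub : gr (h.trans F) ⊆ gr F ∪ (Prod.map id F : V d × V d → V d × V d) '' mv h := by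
    rintro ⟨x, y⟩ ⟨hx, hy⟩
    by_cases hx' : h x = x
    · left
      refine ⟨hx, ?_⟩
      have h1 : y = F (h x) := hy
      rw [hx'] at h1
      exact h1
    · right
      exact ⟨(x, h x), ⟨rfl, hx'⟩, Prod.ext rfl hy.symm⟩
  refine (measure_mono hsub).trans ((measure_union_le _ _).trans ?_)
  gcongr
  exact hΦ.hausdorffMeasure_image_le (Nat.cast_nonneg d) _

theorem swap : S_SWAP := by
  intro d F hF
  have hUQ : U d ⊆ Q d := fun x hx i => ⟨(hx i).1.le, (hx i).2.le⟩
  have hm : ∀ x, x ∈ Q d → F x ∈ Q d := by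
    intro x hx
    by_contra hc
    have h1 : F (F x) = F x := hF _ fun h => hc (hUQ h)
    rw [F.injective h1] at hc
    exact hc hx
  have hm' : ∀ x, x ∈ Q d → F.symm x ∈ Q d := by
    intro x hx
    by_contra hc
    have h1 : F (F.symm x) = F.symm x := hF _ fun h => hc (hUQ h)
    rw [F.apply_symm_apply] at h1
    rw [← h1] at hc
    exact hc hx
  have himg : gr F.symm = (Prod.swap : V d × V d → V d × V d) '' gr F := by
    ext ⟨x, y⟩
    constructor
    · rintro ⟨hx, hy⟩
      have h1 : y = F.symm x := hy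
      refine ⟨(y, x), ⟨?_, ?_⟩, rfl⟩
      · change y ∈ Q d
        rw [h1]
        exact hm' x hx
      · change x = F y
        rw [h1, F.apply_symm_apply]
    · rintro ⟨⟨a, b⟩, ⟨ha, hb⟩, hab⟩
      have h1 : b = F a := hb
      have h2 : b = x := congrArg Prod.fst hab
      have h3 : a = y := congrArg Prod.snd hab
      refine ⟨?_, ?_⟩
      · change x ∈ Q d
        rw [← h2, h1]
        exact hm a ha
      · change y = F.symm x
        rw [← h2, ← h3, h1, F.symm_apply_apply]
  have hiso : Isometry (Prod.swap : V d × V d → V d × V d) := by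
    refine Isometry.of_dist_eq fun p q => ?_
    rw [Prod.dist_eq, Prod.dist_eq]
    exact max_comm _ _
  rw [himg]
  exact hiso.hausdorffMeasure_image (Or.inl (Nat.cast_nonneg d)) _

end Pool.Agent.H280.GMCOSTSWAP
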