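import Pool.Agent.H770.GS.TC

/-!
# Project TC: `n3 r c (c w) = Qc r c w` when `2r ≤ c (r + w)`
-/

set_option autoImplicit false

open MeasureTheory Set intervalIntegral

namespace Pool.Agent.H280.TC

open Pool.Agent.H770.GS

theorem t_cutQ : S_cutQ := by
  intro r c w hr hc hc2 hw hwr hcut
  have hn := nL_cont r
  have hW := W_cont
  have hA : c * (2 * r / c) = 2 * r := by field_simp
  have hA0 : 0 < 2 * r / c := by positivity
  have hAr : 2 * r / c ≤ w + r := by
    rw [div_le_iff₀ hc]
    linarith [mul_comm c (r + w), add_comm w r]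
  -- substitution
  have e1 : n3 r c (c * w) = ∫ a in (w - r)..(w + r), W (a - w) * nLo r (c * a) := by
    unfold n3
    have h := integral_comp_add_left (fun a => W (a - w) * nLo r (c * a)) w (a := -r) (b := r)
    rw [← sub_eq_add_neg] at h
    rw [← h]
    refine integral_congr fun u _ => ?_
    have a1 : w + u - w = u := by ring
    have a2 : c * (w + u) = c * w + c * u := by ring
    rw [a1, a2]
  -- the three pieces
  have hR : EqOn (fun a => W (a - w) * nL r (c * a)) (fun a => W (a - w) * nLo r (c * a))
      (uIoo 0 (2 * r / c)) := by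
    intro a ha
    rw [uIoo_of_le hA0.le] at ha
    have h1 : 0 < c * a := mul_pos hc ha.1
    have h2 : c * a ≤ 2 * r := by
      have := mul_le_mul_of_nonneg_left ha.2.le hc.le
      linarith
    have h3 : nLo r (c * a) = nL r (c * a) := by
      unfold nLo
      rw [if_pos ⟨h1, h2⟩]
    simp only [h3]
  have hZ : EqOn (fun _ => (0 : ℝ)) (fun a => W (a - w) * nLo r (c * a))
      (uIoo (2 * r / c) (w + r)) := by
    intro a ha
    rw [uIoo_of_le hAr] at ha
    have h1 : 2 * r < c * a := by
      have := mul_lt_mul_of_pos_left ha.1 hc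
      linarith
    have h3 : nLo r (c * a) = 0 := by
      unfold nLo
      rw [if_neg (by intro h; linarith [h.2]), if_neg (by intro h; linarith [h.2])]
    simp only [h3, mul_zero]
  have hL : EqOn (fun a => -(W (a - w) * nL r (c * -a))) (fun a => W (a - w) * nLo r (c * a))
      (uIoo (w - r) 0) := by
    intro a ha
    rw [uIoo_of_le (by linarith)] at ha
    have h0 : 0 < -a := by linarith [ha.2]
    have h1 : 0 < c * -a := mul_pos hc h0
    have h2 : c * -a ≤ 2 * r := by
      have h3 : c * -a ≤ 2 * -a := mul_le_mul_of_nonneg_right hc2 h0.le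
      have h4 : c * -a ≤ c * (r - w) := mul_le_mul_of_nonneg_left (by linarith [ha.1]) hc.le
      have h5 : c * (r - w) ≤ 2 * (r - w) := mul_le_mul_of_nonneg_right hc2 (by linarith)
      linarith
    have h3 : nLo r (c * a) = - nL r (c * -a) := by
      unfold nLo
      rw [if_neg (by intro h; linarith [h.1]), if_pos ⟨by linarith, by linarith⟩]
      have h4 : -(c * a) = c * -a := by ring
      rw [h4]
    simp only [h3]
    ring
  have iR : IntervalIntegrable (fun a => W (a - w) * nLo r (c * a)) volume 0 (2 * r / c) :=
    IntervalIntegrable.congr_uIoo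
      (Continuous.intervalIntegrable (by fun_prop) _ _) hR
  have iZ : IntervalIntegrable (fun a => W (a - w) * nLo r (c * a)) volume (2 * r / c) (w + r) :=
    IntervalIntegrable.congr_uIoo
      (Continuous.intervalIntegrable (by fun_prop) _ _) hZ
  have iL : IntervalIntegrable (fun a => W (a - w) * nLo r (c * a)) volume (w - r) 0 :=
    IntervalIntegrable.congr_uIoo
      (Continuous.intervalIntegrable (by fun_prop) _ _) hL
  rw [e1, ← integral_add_adjacent_intervals iL (iR.trans iZ),
    ← integral_add_adjacent_intervals iR iZ, ← integral_congr_uIoo hL,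
    ← integral_congr_uIoo hR, ← integral_congr_uIoo hZ, intervalIntegral.integral_neg,
    intervalIntegral.integral_zero]
  have e2 : ∫ a in (w - r)..0, W (a - w) * nL r (c * -a) =
      ∫ a in (0:ℝ)..(r - w), W (a + w) * nL r (c * a) := by
    have h := integral_comp_neg (fun a => W (a - w) * nL r (c * -a)) (a := 0) (b := r - w)
    have a1 : -(r - w) = w - r := by ring
    rw [neg_zero, a1] at h
    rw [← h]
    refine integral_congr fun u _ => ?_
    simp only [neg_neg]
    have a2 : -u - w = -(u + w) := by ring
    rw [a2, W_even]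
  rw [e2]
  unfold Qc
  ring

end Pool.Agent.H280.TC
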