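import Pool.Agent.H770.GS.TF
import Pool.Agent.H376.GScont

/-!
# Project TF: the Fourier formula (TF1)
-/

set_option autoImplicit false

open MeasureTheory Set intervalIntegral

namespace Pool.Agent.H280.TF

open Pool.Agent.Helper82.GC Pool.Agent.H770.GS Pool.Agent.H376.GScont

lemma int_even {f : ℝ → ℝ} (hf : Continuous f) (he : ∀ x, f (-x) = f x) (r : ℝ) :
    ∫ x in (-r)..r, f x = 2 * ∫ x in (0:ℝ)..r, f x := by
  have h1 : ∫ x in (-r)..0, f x = ∫ x in (0:ℝ)..r, f x := by
    have h := integral_comp_neg (fun x => f x) (a := 0) (b := r)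
    rw [neg_zero] at h
    rw [← h]
    exact integral_congr fun x _ => he x
  rw [← integral_add_adjacent_intervals (hf.intervalIntegrable (-r) 0) (hf.intervalIntegrable 0 r),
    h1]
  ring

/-- the characteristic function in the variable `u = x / r` -/
lemma phi_eq {r : ℝ} (hr : 0 < r) (t : ℝ) : phi r t = cf (r ^ 2 / 2) (r * t) := by
  have h1 : G r t = 2 * r * ∫ u in (0:ℝ)..1, Real.exp (-(r ^ 2 / 2 * u ^ 2)) * Real.cos (r * t * u) := by
    unfold G
    rw [int_even (by fun_prop) (fun x => by rw [mul_neg, Real.cos_neg, neg_sq])]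
    have h := mul_integral_comp_mul_left (f := fun x => Real.cos (t * x) * Real.exp (-x ^ 2 / 2))
      (a := 0) (b := 1) r
    rw [mul_zero, mul_one] at h
    rw [← h, ← mul_assoc]
    congr 1
    refine integral_congr fun u _ => ?_
    have e1 : -(r * u) ^ 2 / 2 = -(r ^ 2 / 2 * u ^ 2) := by ring
    have e2 : t * (r * u) = r * t * u := by ring
    rw [e1, e2, mul_comm]
  have h2 : Zr r = 2 * r * zt (r ^ 2 / 2) := by
    unfold Zr zt
    rw [int_even (by fun_prop) (fun x => by rw [neg_sq])]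
    have h := mul_integral_comp_mul_left (f := fun x => Real.exp (-x ^ 2 / 2)) (a := 0) (b := 1) r
    rw [mul_zero, mul_one] at h
    rw [← h, ← mul_assoc]
    congr 1
    refine integral_congr fun u _ => ?_
    have e1 : -(r * u) ^ 2 / 2 = -(r ^ 2 / 2 * u ^ 2) := by ring
    rw [e1]
  unfold phi cf
  rw [h1, h2, mul_div_mul_left _ _ (by positivity)]

lemma cf_even (ε x : ℝ) : cf ε |x| = cf ε x := by
  rcases abs_choice x with h | h
  · rw [h]
  · rw [h]
    unfold cf
    congr 1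
    refine integral_congr fun u _ => ?_
    rw [neg_mul, Real.cos_neg]

theorem t_TF1 : S_TF1 := by
  intro hlink r β k hr hk hβ hβ1
  have hk0 : (0 : ℝ) < k := by exact_mod_cast (show 0 < k by omega)
  obtain ⟨s, hs⟩ : ∃ s : ℝ, s = Real.sqrt (2 + k * β ^ 2) := ⟨_, rfl⟩
  have hs2 : s ^ 2 = 2 + k * β ^ 2 := by
    rw [hs]
    exact Real.sq_sqrt (by positivity)
  have hs0 : 0 < s := by
    rw [hs]
    exact Real.sqrt_pos.2 (by positivity)
  obtain ⟨a, ha⟩ : ∃ a : ℝ, a = 1 / s := ⟨_, rfl⟩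
  have ha0 : 0 < a := by rw [ha]; positivity
  obtain ⟨b, hb⟩ : ∃ b : ℝ, b = β * a := ⟨_, rfl⟩
  have hb0 : 0 < b := by rw [hb]; positivity
  have hba : b ≤ a := by
    rw [hb]
    exact mul_le_of_le_one_left ha0.le hβ1
  have hsum : 2 * a ^ 2 + k * b ^ 2 = 1 := by
    have h1 : 2 * a ^ 2 + k * b ^ 2 = a ^ 2 * (2 + k * β ^ 2) := by rw [hb]; ring
    rw [h1, ← hs2, ha]
    field_simp
  have h1 := hlink r a b k hr (by omega) ha0 hb0.le hsum
  have h2 : k * b ^ 2 / a ^ 2 = k * β ^ 2 := by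
    rw [hb]
    field_simp
  rw [h2] at h1
  rw [← h1]
  have hKK : dirAB k a b ∈ KK k := by
    unfold dirAB
    refine mem_KK (List.length_replicate) ?_ ha0.le ?_
    · rw [List.map_cons, List.map_cons, List.map_replicate, List.sum_cons, List.sum_cons,
        List.sum_replicate, nsmul_eq_mul]
      linarith
    · intro x hx
      rw [List.eq_of_mem_replicate hx, abs_of_pos hb0]
      exact hba
  rw [Asl_eq hr hKK]
  -- the product
  have h3 : ∀ t : ℝ, fI r (dirAB k a b) t =
      cf (r ^ 2 / 2) |r * a * t| ^ 2 * cf (r ^ 2 / 2) (β * |r * a * t|) ^ k := by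
    intro t
    unfold fI
    rw [Fin.prod_univ_succ, Fin.prod_univ_succ]
    have e0 : dirAB k a b 0 = a := rfl
    have e1 : dirAB k a b (Fin.succ 0) = a := rfl
    have e2 : ∀ i : Fin k, dirAB k a b i.succ.succ = b := by
      intro i
      change (a :: a :: List.replicate k b).getD (i.val + 1 + 1) 0 = b
      rw [List.getD_cons_succ, List.getD_cons_succ, List.getD_eq_getElem _ _ (by simp),
        List.getElem_replicate]
    rw [e0, e1, Finset.prod_congr rfl (fun i _ => by rw [e2 i]), Finset.prod_const,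
      Finset.card_univ, Fintype.card_fin, Real.sqrt_sq ha0.le, Real.sqrt_sq hb0.le,
      phi_eq hr, phi_eq hr, ← mul_assoc, ← sq]
    have e3 : β * |r * a * t| = |β * (r * a * t)| := by rw [abs_mul β, abs_of_pos hβ]
    rw [e3, cf_even, cf_even, hb]
    have e4 : r * (a * t) = r * a * t := by ring
    have e5 : r * (β * a * t) = β * (r * a * t) := by ring
    rw [e4, e5]
  have hra : 0 < r * a := by positivity
  have h4 : ∫ t, fI r (dirAB k a b) t =
      2 * ((r * a)⁻¹ * ∫ τ in Ioi (0:ℝ), cf (r ^ 2 / 2) τ ^ 2 * cf (r ^ 2 / 2) (β * τ) ^ k) := by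
    have h5 : ∀ t : ℝ, fI r (dirAB k a b) t =
        (fun u : ℝ => cf (r ^ 2 / 2) (r * a * u) ^ 2 * cf (r ^ 2 / 2) (β * (r * a * u)) ^ k) |t| := by
      intro t
      rw [h3 t]
      beta_reduce
      rw [abs_mul, abs_of_pos hra]
    have h6 : (fun t => fI r (dirAB k a b) t) = fun t =>
        (fun u : ℝ => cf (r ^ 2 / 2) (r * a * u) ^ 2 * cf (r ^ 2 / 2) (β * (r * a * u)) ^ k) |t| :=
      funext h5
    rw [h6, integral_comp_abs
      (f := fun u : ℝ => cf (r ^ 2 / 2) (r * a * u) ^ 2 * cf (r ^ 2 / 2) (β * (r * a * u)) ^ k)]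
    have h7 := integral_comp_mul_left_Ioi
      (fun τ : ℝ => cf (r ^ 2 / 2) τ ^ 2 * cf (r ^ 2 / 2) (β * τ) ^ k) 0 hra
    rw [mul_zero, smul_eq_mul] at h7
    rw [h7]
  rw [h4]
  unfold GG
  rw [← hs, ha]
  have hpi := Real.pi_pos
  field_simp

end Pool.Agent.H280.TF
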